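import Mathlib

/-!
# Sets of integers without dilates of a set with a dominant element

`S` is a finite set of positive integers, `c` is its largest element and is coprime to the other
ones. If `∑ s ^ σ ≤ c ^ σ` (sum over the other elements), then among all sets `A` without
a dilate `{s n : s ∈ S}` the set of the `n` with even `c`-adic valuation has the largest sum
`∑ n ^ (-σ)` over `n ≤ x`, for every `x`. For `σ = 1` this gives the largest logarithmic density, the
largest lower density and the largest natural density, `c / (c + 1)`. The case `S = {1, 2, 3}`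
is the problem. The proof is a weighted packing: for `m` with even valuation the dilate of `m` gets
the weight `(c m) ^ (-σ)`.
-/

namespace Pool.Agent.Results.MP_37c1b2_nt.DominantMultiplier

open Filter Finset Topology

/-- `A` contains no triple `n, 2n, 3n` with `n` a positive integer. -/
def TripleFree (A : Set ℕ) : Prop := ∀ n : ℕ, 1 ≤ n → ¬ (n ∈ A ∧ 2 * n ∈ A ∧ 3 * n ∈ A)

/-- `A` contains no dilate `{s n : s ∈ S}` with `n` a positive integer. -/
def Free (S : Finset ℕ) (A : Set ℕ) : Prop := ∀ n : ℕ, 1 ≤ n → ¬ ∀ s ∈ S, s * n ∈ A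

/-- The number of elements of `A` in `[1, x]`. -/
noncomputable def count (A : Set ℕ) (x : ℕ) : ℕ := (A ∩ Set.Icc 1 x).ncard

/-- The natural density of the set of positive integers `A` exists and equals `d`. -/
def HasDensity (A : Set ℕ) (d : ℝ) : Prop :=
  Tendsto (fun x : ℕ => (count A x : ℝ) / (x : ℝ)) atTop (𝓝 d)

/-- The positive integers `n` for which the largest `k` with `c ^ k ∣ n` is even. -/
def EvenPart (c : ℕ) : Set ℕ := {n : ℕ | 1 ≤ n ∧ Even (padicValNat c n)}

open Classical in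
/-- The sum of `n ^ (-σ)` over the `n ∈ A` with `1 ≤ n ≤ x`. -/
noncomputable def zsum (A : Set ℕ) (σ : ℝ) (x : ℕ) : ℝ :=
  ∑ n ∈ (Finset.Icc 1 x).filter (fun n => n ∈ A), (n : ℝ) ^ (-σ)

/-! ### The valuation -/

lemma val_self_mul {c n : ℕ} (hc : 2 ≤ c) (hn : 1 ≤ n) :
    padicValNat c (c * n) = padicValNat c n + 1 := by
  have hc1 : c ≠ 1 := by omega
  have hn0 : n ≠ 0 := by omega
  have hcn : c * n ≠ 0 := Nat.mul_ne_zero (by omega) hn0
  have h : ∀ k : ℕ, k + 1 ≤ padicValNat c (c * n) ↔ k ≤ padicValNat c n := by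
    intro k
    rw [← padicValNat_dvd_iff_le_of_ne_one hc1 hcn, ← padicValNat_dvd_iff_le_of_ne_one hc1 hn0,
      pow_succ']
    exact Nat.mul_dvd_mul_iff_left (by omega)
  have h1 := (h (padicValNat c n)).2 le_rfl
  by_contra hne
  have h2 : padicValNat c n + 1 + 1 ≤ padicValNat c (c * n) := by omega
  have h3 := (h (padicValNat c n + 1)).1 h2
  omega

lemma val_coprime_mul {c s n : ℕ} (hc : 2 ≤ c) (hs : 1 ≤ s) (hcop : s.Coprime c) (hn : 1 ≤ n) :
    padicValNat c (s * n) = padicValNat c n := by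
  have hc1 : c ≠ 1 := by omega
  have hn0 : n ≠ 0 := by omega
  have hsn : s * n ≠ 0 := Nat.mul_ne_zero (by omega) hn0
  have h : ∀ k : ℕ, k ≤ padicValNat c (s * n) ↔ k ≤ padicValNat c n := by
    intro k
    rw [← padicValNat_dvd_iff_le_of_ne_one hc1 hsn, ← padicValNat_dvd_iff_le_of_ne_one hc1 hn0]
    constructor
    · intro hd
      exact (Nat.Coprime.pow_left k hcop.symm).dvd_of_dvd_mul_left hd
    · intro hd
      exact Dvd.dvd.mul_left hd s
  exact le_antisymm ((h _).1 le_rfl) ((h _).2 le_rfl)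

lemma even_self_mul {c n : ℕ} (hc : 2 ≤ c) (hn : 1 ≤ n) :
    c * n ∈ EvenPart c ↔ n ∉ EvenPart c := by
  have h1 : 1 ≤ c * n := Nat.mul_pos (by omega) hn
  unfold EvenPart
  rw [Set.mem_ofPred_eq, Set.mem_ofPred_eq, val_self_mul hc hn, Nat.even_add_one]
  tauto

lemma even_coprime_mul {c s n : ℕ} (hc : 2 ≤ c) (hs : 1 ≤ s) (hcop : s.Coprime c) (hn : 1 ≤ n) :
    s * n ∈ EvenPart c ↔ n ∈ EvenPart c := by
  have h1 : 1 ≤ s * n := Nat.mul_pos (by omega) hn
  unfold EvenPart
  rw [Set.mem_ofPred_eq, Set.mem_ofPred_eq, val_coprime_mul hc hs hcop hn]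
  tauto

lemma dvd_of_not_even {c n : ℕ} (hn : 1 ≤ n) (h : n ∉ EvenPart c) : c ∣ n := by
  by_contra hd
  apply h
  refine ⟨hn, ?_⟩
  rw [padicValNat.eq_zero_of_not_dvd hd]
  exact Even.zero

/-! ### Sums over the odd part -/

open Classical in
/-- The integers with odd valuation are the multiples by `c` of those with even valuation. -/
lemma odd_sum {c : ℕ} (hc : 2 ≤ c) (f : ℕ → ℝ) (x : ℕ) :
    ∑ h ∈ (Finset.Icc 1 x).filter (fun h => h ∉ EvenPart c), f h
      = ∑ m ∈ (Finset.Icc 1 (x / c)).filter (fun m => m ∈ EvenPart c), f (c * m) := by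
  symm
  apply Finset.sum_bij (fun m _ => c * m)
  · intro m hm
    rw [Finset.mem_filter, Finset.mem_Icc] at hm ⊢
    have h1 : 1 ≤ c * m := Nat.mul_pos (by omega) hm.1.1
    have h2 : c * m ≤ x := by
      have := Nat.mul_le_mul_left c hm.1.2
      exact this.trans (Nat.mul_div_le x c)
    refine ⟨⟨h1, h2⟩, ?_⟩
    rw [even_self_mul hc hm.1.1, not_not]
    exact hm.2
  · intro a _ b _ hab
    exact Nat.eq_of_mul_eq_mul_left (by omega) hab
  · intro n hn
    rw [Finset.mem_filter, Finset.mem_Icc] at hn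
    obtain ⟨m, rfl⟩ := dvd_of_not_even hn.1.1 hn.2
    have hm : 1 ≤ m := by
      rcases Nat.eq_zero_or_pos m with h | h
      · rw [h] at hn
        have := hn.1.1
        omega
      · exact h
    refine ⟨m, ?_, rfl⟩
    rw [Finset.mem_filter, Finset.mem_Icc]
    refine ⟨⟨hm, ?_⟩, ?_⟩
    · rw [Nat.le_div_iff_mul_le (by omega), Nat.mul_comm]
      exact hn.1.2
    · have := hn.2
      rw [even_self_mul hc hm, not_not] at this
      exact this
  · intro m _
    rfl

open Classical in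
/-- **The packing inequality.** -/
lemma packing {S : Finset ℕ} {c : ℕ} (hc : 2 ≤ c) (hcS : c ∈ S) (h1 : ∀ s ∈ S, 1 ≤ s)
    (hle : ∀ s ∈ S, s ≤ c) (hcop : ∀ s ∈ S.erase c, s.Coprime c) {σ : ℝ}
    (hσ : ∑ s ∈ S.erase c, (s : ℝ) ^ σ ≤ (c : ℝ) ^ σ) {A : Set ℕ} (hA : Free S A) (x : ℕ) :
    ∑ h ∈ (Finset.Icc 1 x).filter (fun h => h ∉ EvenPart c), (h : ℝ) ^ (-σ)
      ≤ ∑ h ∈ (Finset.Icc 1 x).filter (fun h => h ∉ A), (h : ℝ) ^ (-σ) := by
  set M := (Finset.Icc 1 (x / c)).filter (fun m => m ∈ EvenPart c) with hM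
  set g : ℕ → ℝ := fun h => if h ∈ A then 0 else (h : ℝ) ^ (-σ) with hg
  have hg0 : ∀ h, 0 ≤ g h := by
    intro h
    by_cases hh : h ∈ A
    · simp only [hg, if_pos hh]; exact le_rfl
    · simp only [hg, if_neg hh]; positivity
  have hcpos : (0 : ℝ) < c := by
    have : 0 < c := by omega
    exact_mod_cast this
  -- each dilate is hit
  have s1 : ∑ m ∈ M, ((c * m : ℕ) : ℝ) ^ (-σ)
      ≤ ∑ m ∈ M, ∑ s ∈ S, (if s * m ∈ A then 0 else ((c * m : ℕ) : ℝ) ^ (-σ)) := by
    apply Finset.sum_le_sum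
    intro m hm
    rw [hM, Finset.mem_filter, Finset.mem_Icc] at hm
    have h2 := hA m hm.1.1
    push Not at h2
    obtain ⟨s, hs, hsA⟩ := h2
    have h3 : (if s * m ∈ A then 0 else ((c * m : ℕ) : ℝ) ^ (-σ))
        ≤ ∑ s ∈ S, (if s * m ∈ A then 0 else ((c * m : ℕ) : ℝ) ^ (-σ)) := by
      apply Finset.single_le_sum (f := fun s => if s * m ∈ A then 0 else ((c * m : ℕ) : ℝ) ^ (-σ))
      · intro t _
        show 0 ≤ (if t * m ∈ A then 0 else ((c * m : ℕ) : ℝ) ^ (-σ))
        by_cases hh : t * m ∈ A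
        · rw [if_pos hh]
        · rw [if_neg hh]; positivity
      · exact hs
    rw [if_neg hsA] at h3
    exact h3
  rw [Finset.sum_comm, ← Finset.add_sum_erase S _ hcS] at s1
  -- the term of `c`
  have s2 : ∑ m ∈ M, (if c * m ∈ A then 0 else ((c * m : ℕ) : ℝ) ^ (-σ))
      = ∑ h ∈ (Finset.Icc 1 x).filter (fun h => h ∉ EvenPart c), g h := by
    rw [odd_sum hc g x]
  -- the other terms
  have s3 : ∀ s ∈ S.erase c, ∑ m ∈ M, (if s * m ∈ A then 0 else ((c * m : ℕ) : ℝ) ^ (-σ))
      ≤ ((s : ℝ) ^ σ * (c : ℝ) ^ (-σ)) *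
        ∑ h ∈ (Finset.Icc 1 x).filter (fun h => h ∈ EvenPart c), g h := by
    intro s hs
    have hsS := Finset.mem_of_mem_erase hs
    have hs1 := h1 s hsS
    have hspos : (0 : ℝ) < s := by exact_mod_cast hs1
    have e1 : ∀ m ∈ M, (if s * m ∈ A then 0 else ((c * m : ℕ) : ℝ) ^ (-σ))
        = ((s : ℝ) ^ σ * (c : ℝ) ^ (-σ)) * g (s * m) := by
      intro m _
      simp only [hg]
      by_cases hif : s * m ∈ A
      · rw [if_pos hif, if_pos hif, mul_zero]
      · rw [if_neg hif, if_neg hif]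
        push_cast
        rw [Real.mul_rpow hcpos.le (by positivity), Real.mul_rpow hspos.le (by positivity)]
        have : (s : ℝ) ^ σ * (s : ℝ) ^ (-σ) = 1 := by
          rw [← Real.rpow_add hspos, add_neg_cancel, Real.rpow_zero]
        calc (c : ℝ) ^ (-σ) * (m : ℝ) ^ (-σ)
            = ((s : ℝ) ^ σ * (s : ℝ) ^ (-σ)) * ((c : ℝ) ^ (-σ) * (m : ℝ) ^ (-σ)) := by
              rw [this, one_mul]
          _ = _ := by ring
    rw [Finset.sum_congr rfl e1, ← Finset.mul_sum]
    apply mul_le_mul_of_nonneg_left _ (by positivity)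
    have e2 : ∑ m ∈ M, g (s * m) = ∑ h ∈ M.image (fun m => s * m), g h := by
      rw [Finset.sum_image]
      intro a _ b _ hab
      exact Nat.eq_of_mul_eq_mul_left (by omega) hab
    rw [e2]
    apply Finset.sum_le_sum_of_subset_of_nonneg
    · intro h hh
      rw [Finset.mem_image] at hh
      obtain ⟨m, hm, rfl⟩ := hh
      rw [hM, Finset.mem_filter, Finset.mem_Icc] at hm
      rw [Finset.mem_filter, Finset.mem_Icc]
      refine ⟨⟨Nat.mul_pos (by omega) hm.1.1, ?_⟩, ?_⟩
      · calc s * m ≤ c * m := Nat.mul_le_mul_right m (hle s hsS)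
          _ ≤ c * (x / c) := Nat.mul_le_mul_left c hm.1.2
          _ ≤ x := Nat.mul_div_le x c
      · rw [even_coprime_mul hc hs1 (hcop s hs) hm.1.1]
        exact hm.2
    · intro h _ _
      exact hg0 h
  have s4 : ∑ s ∈ S.erase c, ∑ m ∈ M, (if s * m ∈ A then 0 else ((c * m : ℕ) : ℝ) ^ (-σ))
      ≤ ∑ h ∈ (Finset.Icc 1 x).filter (fun h => h ∈ EvenPart c), g h := by
    have hE0 : 0 ≤ ∑ h ∈ (Finset.Icc 1 x).filter (fun h => h ∈ EvenPart c), g h :=
      Finset.sum_nonneg fun h _ => hg0 h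
    calc _ ≤ ∑ s ∈ S.erase c, ((s : ℝ) ^ σ * (c : ℝ) ^ (-σ)) *
        ∑ h ∈ (Finset.Icc 1 x).filter (fun h => h ∈ EvenPart c), g h := Finset.sum_le_sum s3
      _ = ((∑ s ∈ S.erase c, (s : ℝ) ^ σ) * (c : ℝ) ^ (-σ)) *
        ∑ h ∈ (Finset.Icc 1 x).filter (fun h => h ∈ EvenPart c), g h := by
          rw [← Finset.sum_mul, ← Finset.sum_mul]
      _ ≤ 1 * ∑ h ∈ (Finset.Icc 1 x).filter (fun h => h ∈ EvenPart c), g h := by
          apply mul_le_mul_of_nonneg_right _ hE0
          calc (∑ s ∈ S.erase c, (s : ℝ) ^ σ) * (c : ℝ) ^ (-σ)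
              ≤ (c : ℝ) ^ σ * (c : ℝ) ^ (-σ) := mul_le_mul_of_nonneg_right hσ (by positivity)
            _ = 1 := by rw [← Real.rpow_add hcpos, add_neg_cancel, Real.rpow_zero]
      _ = _ := one_mul _
  -- the sum of `g` over all integers
  have s5 : ∑ h ∈ (Finset.Icc 1 x).filter (fun h => h ∈ EvenPart c), g h
      + ∑ h ∈ (Finset.Icc 1 x).filter (fun h => h ∉ EvenPart c), g h
      = ∑ h ∈ (Finset.Icc 1 x).filter (fun h => h ∉ A), (h : ℝ) ^ (-σ) := by
    rw [Finset.sum_filter_add_sum_filter_not, Finset.sum_filter]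
    apply Finset.sum_congr rfl
    intro h _
    by_cases hh : h ∈ A
    · simp only [hg, if_pos hh]
      rw [if_neg (not_not.2 hh)]
    · simp only [hg, if_neg hh]
      rw [if_pos hh]
  rw [odd_sum hc (fun h => (h : ℝ) ^ (-σ)) x]
  show ∑ m ∈ M, ((c * m : ℕ) : ℝ) ^ (-σ) ≤ _
  rw [s2] at s1
  linarith

/-- Domination of the sums. -/
lemma dominated {S : Finset ℕ} {c : ℕ} (hc : 2 ≤ c) (hcS : c ∈ S) (h1 : ∀ s ∈ S, 1 ≤ s)
    (hle : ∀ s ∈ S, s ≤ c) (hcop : ∀ s ∈ S.erase c, s.Coprime c) {σ : ℝ}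
    (hσ : ∑ s ∈ S.erase c, (s : ℝ) ^ σ ≤ (c : ℝ) ^ σ) {A : Set ℕ} (hA : Free S A) (x : ℕ) :
    zsum A σ x ≤ zsum (EvenPart c) σ x := by
  classical
  have h := packing hc hcS h1 hle hcop hσ hA x
  have e1 := Finset.sum_filter_add_sum_filter_not (Finset.Icc 1 x) (fun h => h ∈ A)
    (fun h : ℕ => (h : ℝ) ^ (-σ))
  have e2 := Finset.sum_filter_add_sum_filter_not (Finset.Icc 1 x) (fun h => h ∈ EvenPart c)
    (fun h : ℕ => (h : ℝ) ^ (-σ))
  unfold zsum
  have e3 : ∀ (B : Set ℕ) (f : ℕ → ℝ) (i1 i2 : DecidablePred fun n => n ∈ B),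
      ∑ n ∈ @Finset.filter ℕ (fun n => n ∈ B) i1 (Finset.Icc 1 x), f n
      = ∑ n ∈ @Finset.filter ℕ (fun n => n ∈ B) i2 (Finset.Icc 1 x), f n := by
    intro B f i1 i2
    congr
  linarith

/-! ### Counting -/

lemma count_eq (A : Set ℕ) [DecidablePred fun n => n ∈ A] (x : ℕ) :
    count A x = ((Finset.Icc 1 x).filter (fun n => n ∈ A)).card := by
  unfold count
  rw [← Set.ncard_coe_finset]
  congr 1
  ext n
  simp only [Set.mem_inter_iff, Set.mem_Icc, Finset.coe_filter, Finset.mem_Icc, Set.mem_ofPred_eq]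
  tauto

lemma count_le (A : Set ℕ) (x : ℕ) : count A x ≤ x := by
  classical
  rw [count_eq]
  calc _ ≤ (Finset.Icc 1 x).card := Finset.card_filter_le _ _
    _ = x := by simp

/-- The recursion for the counting function of the integers with even valuation. -/
lemma count_rec {c : ℕ} (hc : 2 ≤ c) (x : ℕ) :
    (count (EvenPart c) x : ℝ) + count (EvenPart c) (x / c) = x := by
  classical
  have h := odd_sum hc (fun _ => (1 : ℝ)) x
  have h2 := Finset.sum_filter_add_sum_filter_not (Finset.Icc 1 x) (fun h => h ∈ EvenPart c)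
    (fun _ : ℕ => (1 : ℝ))
  rw [count_eq, count_eq]
  simp only [Finset.sum_const, nsmul_eq_mul, mul_one, Nat.card_Icc, Nat.add_sub_cancel] at h h2
  rw [← h]
  exact h2

lemma count_bound {c : ℕ} (hc : 2 ≤ c) (x : ℕ) :
    |(count (EvenPart c) x : ℝ) - (c : ℝ) / (c + 1) * x| ≤ Nat.log 2 x + 1 := by
  have hc0 : (0 : ℝ) < c := by
    have : 0 < c := by omega
    exact_mod_cast this
  have hk1 : (c : ℝ) / (c + 1) ≤ 1 := by
    rw [div_le_one (by positivity)]
    linarith
  have hk0 : (0 : ℝ) ≤ (c : ℝ) / (c + 1) := by positivity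
  induction x using Nat.strong_induction_on with
  | _ x ih =>
    rcases Nat.lt_or_ge x 2 with hx | hx
    · have h1 := count_le (EvenPart c) x
      have h2 : (count (EvenPart c) x : ℝ) ≤ x := by exact_mod_cast h1
      have h3 : (0 : ℝ) ≤ count (EvenPart c) x := by positivity
      have h4 : (x : ℝ) ≤ 1 := by
        have : x ≤ 1 := by omega
        exact_mod_cast this
      have h4' : (0 : ℝ) ≤ x := by positivity
      have h5 : (0 : ℝ) ≤ (Nat.log 2 x : ℝ) := by positivity
      have h6 : (c : ℝ) / (c + 1) * x ≤ 1 := by nlinarith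
      have h7 : 0 ≤ (c : ℝ) / (c + 1) * x := by positivity
      rw [abs_le]
      constructor <;> linarith
    · have hlt : x / c < x := Nat.div_lt_self (by omega) (by omega)
      have h1 := ih (x / c) hlt
      have h3 := count_rec hc x
      have h4 : Nat.log 2 (x / c) + 1 ≤ Nat.log 2 x := by
        have h5 : Nat.log 2 (x / c) ≤ Nat.log 2 (x / 2) :=
          Nat.log_mono_right (Nat.div_le_div_left hc (by norm_num))
        have h6 : Nat.log 2 (x / 2) = Nat.log 2 x - 1 := Nat.log_div_base 2 x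
        have h7 : 1 ≤ Nat.log 2 x := Nat.log_pos (by norm_num) hx
        omega
      have h5 : (Nat.log 2 (x / c) : ℝ) + 1 ≤ (Nat.log 2 x : ℝ) := by exact_mod_cast h4
      have h6 : c * (x / c) + x % c = x := Nat.div_add_mod x c
      have h7 : x % c < c := Nat.mod_lt _ (by omega)
      have h8 : (c : ℝ) * ((x / c : ℕ) : ℝ) + ((x % c : ℕ) : ℝ) = x := by exact_mod_cast h6
      have h9 : ((x % c : ℕ) : ℝ) ≤ c := by exact_mod_cast h7.le
      have h10 : (0 : ℝ) ≤ ((x % c : ℕ) : ℝ) := by positivity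
      have h11 : (c : ℝ) / (c + 1) * x + (c : ℝ) / (c + 1) * ((x / c : ℕ) : ℝ)
          = x - ((x % c : ℕ) : ℝ) / (c + 1) := by
        rw [← h8]
        field_simp
        ring
      have h12 : ((x % c : ℕ) : ℝ) / (c + 1) ≤ 1 := by
        rw [div_le_one (by positivity)]
        linarith
      have h13 : 0 ≤ ((x % c : ℕ) : ℝ) / (c + 1) := by positivity
      rw [abs_le] at h1 ⊢
      constructor <;> linarith [h1.1, h1.2]

lemma tendsto_log_div : Tendsto (fun x : ℕ => ((Nat.log 2 x : ℝ) + 1) / (x : ℝ)) atTop (𝓝 0) := by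
  have h1 : Tendsto (fun x : ℕ => Real.log (x : ℝ) / (x : ℝ)) atTop (𝓝 0) := by
    have := Real.isLittleO_log_id_atTop.tendsto_div_nhds_zero
    exact this.comp tendsto_natCast_atTop_atTop
  have h2 : Tendsto (fun x : ℕ => (1 : ℝ) / (x : ℝ)) atTop (𝓝 0) :=
    tendsto_one_div_atTop_nhds_zero_nat
  have h3 : Tendsto (fun x : ℕ => Real.log (x : ℝ) / (x : ℝ) * (1 / Real.log 2) + 1 / (x : ℝ))
      atTop (𝓝 0) := by
    have := (h1.mul_const (1 / Real.log 2)).add h2
    simpa using this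
  apply squeeze_zero' (Eventually.of_forall fun x => by positivity) _ h3
  filter_upwards [eventually_ge_atTop 1] with x hx
  have hx0 : (0 : ℝ) < x := by exact_mod_cast hx
  have hl2 : 0 < Real.log 2 := Real.log_pos (by norm_num)
  have h4 : (Nat.log 2 x : ℝ) ≤ Real.log x / Real.log 2 := by
    rw [le_div_iff₀ hl2, ← Real.log_pow]
    apply Real.log_le_log (by positivity)
    exact_mod_cast Nat.pow_log_le_self 2 (by omega)
  rw [add_div]
  have h5 : (Nat.log 2 x : ℝ) / x ≤ Real.log (x : ℝ) / (x : ℝ) * (1 / Real.log 2) := by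
    rw [div_le_iff₀ hx0]
    calc (Nat.log 2 x : ℝ) ≤ Real.log x / Real.log 2 := h4
      _ = Real.log (x : ℝ) / (x : ℝ) * (1 / Real.log 2) * x := by field_simp
  linarith

lemma density_even {c : ℕ} (hc : 2 ≤ c) : HasDensity (EvenPart c) ((c : ℝ) / (c + 1)) := by
  unfold HasDensity
  rw [tendsto_iff_norm_sub_tendsto_zero]
  apply squeeze_zero' (Eventually.of_forall fun x => norm_nonneg _) _ tendsto_log_div
  filter_upwards [eventually_ge_atTop 1] with x hx
  have hx0 : (0 : ℝ) < x := by exact_mod_cast hx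
  have h1 := count_bound hc x
  rw [Real.norm_eq_abs]
  have h2 : (count (EvenPart c) x : ℝ) / x - (c : ℝ) / (c + 1)
      = ((count (EvenPart c) x : ℝ) - (c : ℝ) / (c + 1) * x) / x := by
    rw [sub_div, mul_div_assoc, div_self hx0.ne', mul_one]
  rw [h2, abs_div, abs_of_pos hx0]
  exact div_le_div_of_nonneg_right h1 hx0.le

/-! ### Harmonic sums -/

lemma zsum_one (A : Set ℕ) [DecidablePred fun n => n ∈ A] (x : ℕ) :
    zsum A 1 x = ∑ n ∈ (Finset.Icc 1 x).filter (fun n => n ∈ A), ((n : ℝ))⁻¹ := by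
  unfold zsum
  apply Finset.sum_congr
  · congr
  · intro n _
    rw [Real.rpow_neg_one]

lemma harm_rec {c : ℕ} (hc : 2 ≤ c) (x : ℕ) :
    zsum (EvenPart c) 1 x + (1 / (c : ℝ)) * zsum (EvenPart c) 1 (x / c) = (harmonic x : ℝ) := by
  classical
  have h := odd_sum hc (fun n => ((n : ℝ))⁻¹) x
  have h2 := Finset.sum_filter_add_sum_filter_not (Finset.Icc 1 x) (fun h => h ∈ EvenPart c)
    (fun n : ℕ => ((n : ℝ))⁻¹)
  rw [zsum_one, zsum_one]
  have h3 : (1 / (c : ℝ)) * ∑ n ∈ (Finset.Icc 1 (x / c)).filter (fun n => n ∈ EvenPart c), ((n : ℝ))⁻¹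
      = ∑ m ∈ (Finset.Icc 1 (x / c)).filter (fun m => m ∈ EvenPart c), (((c * m : ℕ)) : ℝ)⁻¹ := by
    rw [Finset.mul_sum]
    apply Finset.sum_congr rfl
    intro m _
    push_cast
    rw [mul_inv, one_div]
  rw [h3, ← h, h2]
  rw [harmonic_eq_sum_Icc]
  push_cast
  rfl

lemma harm_bounds {c : ℕ} (hc : 2 ≤ c) (x : ℕ) :
    (1 ≤ x → zsum (EvenPart c) 1 x ≤ (c : ℝ) / (c + 1) * Real.log x + 2) ∧
    (c : ℝ) / (c + 1) * Real.log ((x + 1 : ℕ) : ℝ) - 1 ≤ zsum (EvenPart c) 1 x := by
  have hc2 : (2 : ℝ) ≤ c := by exact_mod_cast hc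
  have hc0 : (0 : ℝ) < c := by linarith
  have hk : (c : ℝ) / (c + 1) + 1 / (c + 1) = 1 := by
    field_simp
  have hcl0 : 0 ≤ Real.log c := Real.log_nonneg (by linarith)
  have hcl1 : Real.log c ≤ c - 1 := Real.log_le_sub_one_of_pos hc0
  induction x using Nat.strong_induction_on with
  | _ x ih =>
    rcases Nat.eq_zero_or_pos x with hx | hx
    · subst hx
      constructor
      · intro h; omega
      · simp [zsum]
    · have hlt : x / c < x := Nat.div_lt_self (by omega) (by omega)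
      obtain ⟨ih1, ih2⟩ := ih (x / c) hlt
      have hrec := harm_rec hc x
      have hup := harmonic_le_one_add_log x
      have hlo := log_add_one_le_harmonic x
      have hx0 : (0 : ℝ) < x := by exact_mod_cast hx
      constructor
      · intro _
        -- log (x / c + 1) ≥ log x - log c
        have h1 : (x : ℝ) ≤ c * ((x / c + 1 : ℕ) : ℝ) := by
          have : x ≤ c * (x / c + 1) := (Nat.lt_mul_div_succ x (by omega)).le
          exact_mod_cast this
        have h2 : Real.log x ≤ Real.log c + Real.log ((x / c + 1 : ℕ) : ℝ) := by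
          rw [← Real.log_mul hc0.ne' (by positivity)]
          exact Real.log_le_log hx0 h1
        have h3 : (1 / (c : ℝ)) * ((c : ℝ) / (c + 1) * Real.log ((x / c + 1 : ℕ) : ℝ) - 1)
            ≤ (1 / (c : ℝ)) * zsum (EvenPart c) 1 (x / c) :=
          mul_le_mul_of_nonneg_left ih2 (by positivity)
        have h4 : (1 / (c : ℝ)) * ((c : ℝ) / (c + 1) * Real.log ((x / c + 1 : ℕ) : ℝ) - 1)
            = 1 / (c + 1) * Real.log ((x / c + 1 : ℕ) : ℝ) - 1 / c := by
          field_simp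
        have h5 : 1 / ((c : ℝ) + 1) * Real.log x
            ≤ 1 / ((c : ℝ) + 1) * (Real.log c + Real.log ((x / c + 1 : ℕ) : ℝ)) :=
          mul_le_mul_of_nonneg_left h2 (by positivity)
        have h6 : 1 / ((c : ℝ) + 1) * Real.log c + 1 / c ≤ 1 := by
          rw [div_mul_eq_mul_div, one_mul, div_add_div _ _ (by positivity) hc0.ne',
            div_le_one (by positivity)]
          nlinarith
        have h7 : (c : ℝ) / (c + 1) * Real.log x = Real.log x - 1 / (c + 1) * Real.log x := by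
          have : (c : ℝ) / (c + 1) = 1 - 1 / (c + 1) := by linarith
          rw [this]; ring
        have h8 : 1 / ((c : ℝ) + 1) * (Real.log c + Real.log ((x / c + 1 : ℕ) : ℝ))
            = 1 / ((c : ℝ) + 1) * Real.log c + 1 / ((c : ℝ) + 1) * Real.log ((x / c + 1 : ℕ) : ℝ) := by
          ring
        linarith
      · rcases Nat.eq_zero_or_pos (x / c) with hy | hy
        · have hz : zsum (EvenPart c) 1 (x / c) = 0 := by
            rw [hy]; simp [zsum]
          rw [hz, mul_zero, add_zero] at hrec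
          rw [hrec]
          have h1 : 0 ≤ Real.log ((x + 1 : ℕ) : ℝ) := Real.log_nonneg (by
            push_cast; linarith)
          have h2 : (c : ℝ) / (c + 1) ≤ 1 := by
            rw [div_le_one (by positivity)]; linarith
          have h3 : (c : ℝ) / (c + 1) * Real.log ((x + 1 : ℕ) : ℝ) ≤ 1 * Real.log ((x + 1 : ℕ) : ℝ) :=
            mul_le_mul_of_nonneg_right h2 h1
          linarith
        · have h0 := ih1 hy
          have hy0 : (0 : ℝ) < ((x / c : ℕ) : ℝ) := by exact_mod_cast hy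
          have h1 : (c : ℝ) * ((x / c : ℕ) : ℝ) ≤ ((x + 1 : ℕ) : ℝ) := by
            have : c * (x / c) ≤ x + 1 := (Nat.mul_div_le x c).trans (Nat.le_succ x)
            exact_mod_cast this
          have h2 : Real.log c + Real.log ((x / c : ℕ) : ℝ) ≤ Real.log ((x + 1 : ℕ) : ℝ) := by
            rw [← Real.log_mul hc0.ne' hy0.ne']
            exact Real.log_le_log (by positivity) h1
          have h3 : (1 / (c : ℝ)) * zsum (EvenPart c) 1 (x / c)
              ≤ (1 / (c : ℝ)) * ((c : ℝ) / (c + 1) * Real.log ((x / c : ℕ) : ℝ) + 2) :=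
            mul_le_mul_of_nonneg_left h0 (by positivity)
          have h4 : (1 / (c : ℝ)) * ((c : ℝ) / (c + 1) * Real.log ((x / c : ℕ) : ℝ) + 2)
              = 1 / (c + 1) * Real.log ((x / c : ℕ) : ℝ) + 2 / c := by
            field_simp
          have h5 : 1 / ((c : ℝ) + 1) * (Real.log c + Real.log ((x / c : ℕ) : ℝ))
              ≤ 1 / ((c : ℝ) + 1) * Real.log ((x + 1 : ℕ) : ℝ) :=
            mul_le_mul_of_nonneg_left h2 (by positivity)
          have h6 : 2 / (c : ℝ) ≤ 1 := by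
            rw [div_le_one hc0]; linarith
          have h7 : (c : ℝ) / (c + 1) * Real.log ((x + 1 : ℕ) : ℝ)
              = Real.log ((x + 1 : ℕ) : ℝ) - 1 / (c + 1) * Real.log ((x + 1 : ℕ) : ℝ) := by
            have : (c : ℝ) / (c + 1) = 1 - 1 / (c + 1) := by linarith
            rw [this]; ring
          have h8 : 1 / ((c : ℝ) + 1) * (Real.log c + Real.log ((x / c : ℕ) : ℝ))
              = 1 / ((c : ℝ) + 1) * Real.log c + 1 / ((c : ℝ) + 1) * Real.log ((x / c : ℕ) : ℝ) := by
            ring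
          have h9 : 0 ≤ 1 / ((c : ℝ) + 1) * Real.log c := by positivity
          linarith

/-- Summation by parts. -/
lemma abel (A : Set ℕ) (x : ℕ) :
    zsum A 1 x = (count A x : ℝ) / (x + 1)
      + ∑ n ∈ Finset.range x, (count A (n + 1) : ℝ) / ((n + 1) * (n + 2)) := by
  classical
  rw [zsum_one]
  induction x with
  | zero =>
    have : count A 0 = 0 := by
      have := count_le A 0
      omega
    simp [this]
  | succ x ih =>
    have e1 : Finset.Icc 1 (x + 1) = insert (x + 1) (Finset.Icc 1 x) := by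
      ext n
      simp only [Finset.mem_insert, Finset.mem_Icc]
      omega
    have e2 : (x + 1) ∉ Finset.Icc 1 x := by
      simp
    have hx1 : (0 : ℝ) < (x : ℝ) + 1 := by positivity
    have hx2 : (0 : ℝ) < (x : ℝ) + 2 := by positivity
    rw [Finset.sum_range_succ, e1, Finset.filter_insert]
    have hcA : count A (x + 1) = count A x + (if (x + 1) ∈ A then 1 else 0) := by
      rw [count_eq, count_eq, e1, Finset.filter_insert]
      split_ifs with h
      · rw [Finset.card_insert_of_notMem]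
        simp
      · simp
    split_ifs with h
    · rw [Finset.sum_insert (by simp), ih, hcA, if_pos h]
      push_cast
      field_simp
      ring
    · rw [ih, hcA, if_neg h]
      push_cast
      field_simp
      ring

/-- A bound for the harmonic sums bounds the lower density. -/
lemma lower_density {A : Set ℕ} {κ : ℝ}
    (h : ∀ x : ℕ, 1 ≤ x → zsum A 1 x ≤ κ * Real.log x + 2) {δ : ℝ} (hκ : 0 ≤ κ) (hδ : κ < δ) :
    ∃ᶠ x : ℕ in atTop, (count A x : ℝ) < δ * x := by
  by_contra hcon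
  rw [not_frequently] at hcon
  obtain ⟨x₀, hx₀⟩ := eventually_atTop.1 hcon
  have hδ0 : 0 < δ := by linarith
  -- lower bound for the harmonic sum
  have hlow : ∀ x : ℕ, δ * ((harmonic (x + 1) : ℝ) - (harmonic (x₀ + 1) : ℝ)) ≤ zsum A 1 x := by
    intro x
    rw [abel]
    have h1 : (0 : ℝ) ≤ (count A x : ℝ) / (x + 1) := by positivity
    have h2 : ∀ y : ℕ, δ * ((harmonic (y + 1) : ℝ) - (harmonic (x₀ + 1) : ℝ))
        ≤ ∑ n ∈ Finset.range y, (count A (n + 1) : ℝ) / ((n + 1) * (n + 2)) := by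
      intro y
      induction y with
      | zero =>
        have h3 : (harmonic (0 + 1) : ℝ) ≤ (harmonic (x₀ + 1) : ℝ) := by
          have h4 : (harmonic (0 + 1) : ℝ) = 1 := by norm_num [harmonic]
          have h5 : (1 : ℝ) ≤ (harmonic (x₀ + 1) : ℝ) := by
            rw [harmonic_eq_sum_Icc]
            push_cast
            have h6 : ((1 : ℕ) : ℝ)⁻¹ ≤ ∑ i ∈ Finset.Icc 1 (x₀ + 1), ((i : ℕ) : ℝ)⁻¹ :=
              Finset.single_le_sum (f := fun i : ℕ => ((i : ℕ) : ℝ)⁻¹)
                (fun i _ => by positivity) (by simp)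
            simpa using h6
          linarith
        simp only [Finset.range_zero, Finset.sum_empty]
        nlinarith
      | succ y ihy =>
        rw [Finset.sum_range_succ]
        have hs : (harmonic (y + 1 + 1) : ℝ) = (harmonic (y + 1) : ℝ) + 1 / ((y : ℝ) + 2) := by
          rw [harmonic_succ]
          push_cast
          ring
        rcases Nat.lt_or_ge (y + 1) x₀ with hy | hy
        · -- the left side is not positive
          have h3 : (harmonic (y + 1 + 1) : ℝ) ≤ (harmonic (x₀ + 1) : ℝ) := by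
            rw [harmonic_eq_sum_Icc, harmonic_eq_sum_Icc]
            push_cast
            apply Finset.sum_le_sum_of_subset_of_nonneg
            · apply Finset.Icc_subset_Icc_right
              omega
            · intro i _ _
              positivity
          have h4 : 0 ≤ ∑ n ∈ Finset.range y, (count A (n + 1) : ℝ) / ((n + 1) * (n + 2)) :=
            Finset.sum_nonneg fun n _ => by positivity
          have h5 : 0 ≤ (count A (y + 1) : ℝ) / ((y + 1) * (y + 2)) := by positivity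
          nlinarith
        · have h3 := hx₀ (y + 1) hy
          push Not at h3
          have h4 : δ * (1 / ((y : ℝ) + 2)) ≤ (count A (y + 1) : ℝ) / ((y + 1) * (y + 2)) := by
            rw [mul_one_div, div_le_div_iff₀ (by positivity) (by positivity)]
            push_cast at h3
            have h5 : (0 : ℝ) < (y : ℝ) + 2 := by positivity
            nlinarith
          rw [hs]
          nlinarith
    linarith [h2 x]
  -- contradiction
  have hlog : Tendsto (fun x : ℕ => (δ - κ) * Real.log (x : ℝ)) atTop atTop := by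
    apply Tendsto.const_mul_atTop (by linarith)
    exact Real.tendsto_log_atTop.comp tendsto_natCast_atTop_atTop
  obtain ⟨x, hx1, hx2⟩ := ((hlog.eventually_gt_atTop (2 + δ * (harmonic (x₀ + 1) : ℝ))).and
    (eventually_ge_atTop 1)).exists
  have h1 := hlow x
  have h2 := h x hx2
  have h3 := log_add_one_le_harmonic (x + 1)
  have hx0 : (0 : ℝ) < x := by exact_mod_cast hx2
  have h4 : Real.log x ≤ Real.log ((x + 1 + 1 : ℕ) : ℝ) := by
    apply Real.log_le_log hx0
    push_cast
    linarith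
  nlinarith

/-! ### The theorem -/

/-- **Dominant multipliers.** Let `S` be a finite set of positive integers with largest element `c`
and at least one other element, all the other ones being coprime to `c`.
(1) If `σ` is a real number with `∑ s ^ σ ≤ c ^ σ`, the sum over the elements `s ≠ c` of `S`, then
for every `x` the set `EvenPart c` has the largest sum `∑ n ^ (-σ)`, `n ≤ x`, among all sets without
a dilate of `S`.
(2) If `∑ s ≤ c`, this holds for every `σ ≥ 1`; every set `A` without a dilate of `S` satisfies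
`∑ 1 / n ≤ c / (c + 1) log x + 2` for all `x ≥ 1` (sum over `n ∈ A`, `n ≤ x`), its lower density is
at most `c / (c + 1)`, and `c / (c + 1)` is the largest natural density of such a set.
(3) In particular the number `δ*` of the problem is attained and equals `3 / 4`. -/
theorem result :
    (∀ (S : Finset ℕ) (c : ℕ), c ∈ S → (∀ s ∈ S, 1 ≤ s ∧ s ≤ c) → (S.erase c).Nonempty →
      (∀ s ∈ S.erase c, s.Coprime c) →
      (∀ σ : ℝ, ∑ s ∈ S.erase c, (s : ℝ) ^ σ ≤ (c : ℝ) ^ σ →
        ∀ A : Set ℕ, Free S A → ∀ x : ℕ, zsum A σ x ≤ zsum (EvenPart c) σ x) ∧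
      (∑ s ∈ S.erase c, s ≤ c →
        (∀ A : Set ℕ, Free S A →
          (∀ σ : ℝ, 1 ≤ σ → ∀ x : ℕ, zsum A σ x ≤ zsum (EvenPart c) σ x) ∧
          (∀ x : ℕ, 1 ≤ x → zsum A 1 x ≤ (c : ℝ) / (c + 1) * Real.log x + 2) ∧
          (∀ δ : ℝ, (c : ℝ) / (c + 1) < δ → ∃ᶠ x : ℕ in atTop, (count A x : ℝ) < δ * x)) ∧
        Free S (EvenPart c) ∧
        (∀ x : ℕ, |(count (EvenPart c) x : ℝ) - (c : ℝ) / (c + 1) * x| ≤ Nat.log 2 x + 1) ∧
        IsGreatest {d : ℝ | ∃ A : Set ℕ, (∀ a ∈ A, 1 ≤ a) ∧ Free S A ∧ HasDensity A d}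
          ((c : ℝ) / (c + 1)))) ∧
    IsGreatest {d : ℝ | ∃ A : Set ℕ, (∀ a ∈ A, 1 ≤ a) ∧ TripleFree A ∧ HasDensity A d} (3 / 4) := by
  have main : ∀ (S : Finset ℕ) (c : ℕ), c ∈ S → (∀ s ∈ S, 1 ≤ s ∧ s ≤ c) → (S.erase c).Nonempty →
      (∀ s ∈ S.erase c, s.Coprime c) →
      (∀ σ : ℝ, ∑ s ∈ S.erase c, (s : ℝ) ^ σ ≤ (c : ℝ) ^ σ →
        ∀ A : Set ℕ, Free S A → ∀ x : ℕ, zsum A σ x ≤ zsum (EvenPart c) σ x) ∧
      (∑ s ∈ S.erase c, s ≤ c →
        (∀ A : Set ℕ, Free S A →
          (∀ σ : ℝ, 1 ≤ σ → ∀ x : ℕ, zsum A σ x ≤ zsum (EvenPart c) σ x) ∧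
          (∀ x : ℕ, 1 ≤ x → zsum A 1 x ≤ (c : ℝ) / (c + 1) * Real.log x + 2) ∧
          (∀ δ : ℝ, (c : ℝ) / (c + 1) < δ → ∃ᶠ x : ℕ in atTop, (count A x : ℝ) < δ * x)) ∧
        Free S (EvenPart c) ∧
        (∀ x : ℕ, |(count (EvenPart c) x : ℝ) - (c : ℝ) / (c + 1) * x| ≤ Nat.log 2 x + 1) ∧
        IsGreatest {d : ℝ | ∃ A : Set ℕ, (∀ a ∈ A, 1 ≤ a) ∧ Free S A ∧ HasDensity A d}
          ((c : ℝ) / (c + 1))) := by
    intro S c hcS hS hne hcop
    obtain ⟨s₀, hs₀⟩ := hne
    have hs₀S := Finset.mem_of_mem_erase hs₀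
    have hs₀c := Finset.ne_of_mem_erase hs₀
    have hc : 2 ≤ c := by
      have := hS s₀ hs₀S
      omega
    have hcpos : (0 : ℝ) < c := by
      have : 0 < c := by omega
      exact_mod_cast this
    have hdom : ∀ σ : ℝ, ∑ s ∈ S.erase c, (s : ℝ) ^ σ ≤ (c : ℝ) ^ σ →
        ∀ A : Set ℕ, Free S A → ∀ x : ℕ, zsum A σ x ≤ zsum (EvenPart c) σ x :=
      fun σ hσ A hA x => dominated hc hcS (fun s hs => (hS s hs).1) (fun s hs => (hS s hs).2)
        hcop hσ hA x
    refine ⟨hdom, fun hsum => ?_⟩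
    have hsumR : ∑ s ∈ S.erase c, (s : ℝ) ≤ c := by
      have h := (Nat.cast_le (α := ℝ)).2 hsum
      rwa [Nat.cast_sum] at h
    have hσ1 : ∀ σ : ℝ, 1 ≤ σ → ∑ s ∈ S.erase c, (s : ℝ) ^ σ ≤ (c : ℝ) ^ σ := by
      intro σ hσ
      have e1 : ∀ s ∈ S.erase c, (s : ℝ) ^ σ ≤ (s : ℝ) * (c : ℝ) ^ (σ - 1) := by
        intro s hs
        have hs1 := hS s (Finset.mem_of_mem_erase hs)
        have hspos : (0 : ℝ) < s := by
          have : 0 < s := hs1.1
          exact_mod_cast this
        have hsc : (s : ℝ) ≤ c := by exact_mod_cast hs1.2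
        calc (s : ℝ) ^ σ = (s : ℝ) * (s : ℝ) ^ (σ - 1) := by
              rw [← Real.rpow_one_add' hspos.le (by linarith)]
              congr 1
              ring
          _ ≤ (s : ℝ) * (c : ℝ) ^ (σ - 1) :=
              mul_le_mul_of_nonneg_left (Real.rpow_le_rpow hspos.le hsc (by linarith)) hspos.le
      calc ∑ s ∈ S.erase c, (s : ℝ) ^ σ ≤ ∑ s ∈ S.erase c, (s : ℝ) * (c : ℝ) ^ (σ - 1) :=
            Finset.sum_le_sum e1
        _ = (∑ s ∈ S.erase c, (s : ℝ)) * (c : ℝ) ^ (σ - 1) := by rw [Finset.sum_mul]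
        _ ≤ (c : ℝ) * (c : ℝ) ^ (σ - 1) := mul_le_mul_of_nonneg_right hsumR (by positivity)
        _ = (c : ℝ) ^ σ := by
            rw [← Real.rpow_one_add' hcpos.le (by linarith)]
            congr 1
            ring
    have hA3 : ∀ A : Set ℕ, Free S A →
        (∀ x : ℕ, 1 ≤ x → zsum A 1 x ≤ (c : ℝ) / (c + 1) * Real.log x + 2) := by
      intro A hA x hx
      exact (hdom 1 (hσ1 1 le_rfl) A hA x).trans ((harm_bounds hc x).1 hx)
    have hk0 : (0 : ℝ) ≤ (c : ℝ) / (c + 1) := by positivity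
    have hA4 : ∀ A : Set ℕ, Free S A → ∀ δ : ℝ, (c : ℝ) / (c + 1) < δ →
        ∃ᶠ x : ℕ in atTop, (count A x : ℝ) < δ * x :=
      fun A hA δ hδ => lower_density (hA3 A hA) hk0 hδ
    have hfree : Free S (EvenPart c) := by
      intro n hn hall
      have h1 := hall c hcS
      have h2 := hall s₀ hs₀S
      rw [even_coprime_mul hc (hS s₀ hs₀S).1 (hcop s₀ hs₀) hn] at h2
      rw [even_self_mul hc hn] at h1
      exact h1 h2
    refine ⟨fun A hA => ⟨fun σ hσ x => hdom σ (hσ1 σ hσ) A hA x, hA3 A hA, hA4 A hA⟩, hfree,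
      count_bound hc, ⟨EvenPart c, fun a ha => ha.1, hfree, density_even hc⟩, ?_⟩
    rintro d ⟨A, -, hA, hd⟩
    by_contra hcon
    push Not at hcon
    have h1 := hA4 A hA (((c : ℝ) / (c + 1) + d) / 2) (by linarith)
    unfold HasDensity at hd
    have h2 : ∀ᶠ x : ℕ in atTop, ((c : ℝ) / (c + 1) + d) / 2 < (count A x : ℝ) / x :=
      hd.eventually (lt_mem_nhds (by linarith))
    obtain ⟨x, hx1, hx2, hx3⟩ := (h1.and_eventually (h2.and (eventually_ge_atTop 1))).exists
    have hx0 : (0 : ℝ) < x := by exact_mod_cast hx3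
    rw [lt_div_iff₀ hx0] at hx2
    linarith
  refine ⟨main, ?_⟩
  have h := (main {1, 2, 3} 3 (by decide) (by decide) (by decide) (by decide)).2 (by decide)
  have h3 := h.2.2.2
  have hiff : ∀ A : Set ℕ, Free {1, 2, 3} A ↔ TripleFree A := by
    intro A
    unfold Free TripleFree
    constructor
    · intro h n hn hc
      apply h n hn
      intro s hs
      simp only [Finset.mem_insert, Finset.mem_singleton] at hs
      rcases hs with rfl | rfl | rfl
      · rw [one_mul]; exact hc.1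
      · exact hc.2.1
      · exact hc.2.2
    · intro h n hn hall
      apply h n hn
      refine ⟨?_, hall 2 (by decide), hall 3 (by decide)⟩
      have := hall 1 (by decide)
      rwa [one_mul] at this
  have he : ((3 : ℕ) : ℝ) / (((3 : ℕ) : ℝ) + 1) = 3 / 4 := by norm_num
  rw [he] at h3
  simpa only [hiff] using h3

end Pool.Agent.Results.MP_37c1b2_nt.DominantMultiplier
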